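import Pool.Agent.Helper20.RG.St1

/-!
# Project RG, module FAM
-/

set_option autoImplicit false

open MeasureTheory Set Filter Topology
open scoped ENNReal RealInnerProductSpace FourierTransform

namespace Pool.Agent.Helper33.RG

open Pool.Agent.Helper20.RG
open Pool.Agent.Helper68.LM (Pl BB Bd Av HL ft fm DQ)

theorem bb_int (g : Pl → ℝ) (hg : BB g) : Integrable g := by
  obtain ⟨hm, K, hK, hs⟩ := hg
  have h1 : Integrable (indicator (Metric.closedBall (0 : Pl) K) fun _ => K) :=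
    (integrable_indicator_iff Metric.isClosed_closedBall.measurableSet).2
      (integrableOn_const (measure_closedBall_lt_top.ne))
  refine h1.mono' hm.aestronglyMeasurable (Filter.Eventually.of_forall fun x => ?_)
  by_cases hx : x ∈ Metric.closedBall (0 : Pl) K
  · rw [indicator_of_mem hx, Real.norm_eq_abs]
    exact hK x
  · rw [indicator_of_notMem hx, hs x (by simpa using hx), norm_zero]

theorem bb_sub (g h : Pl → ℝ) (hg : BB g) (hh : BB h) : BB (fun x => g x - h x) := by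
  obtain ⟨hm, K, hK, hs⟩ := hg
  obtain ⟨hm', K', hK', hs'⟩ := hh
  have hK0 : 0 ≤ K := (abs_nonneg _).trans (hK 0)
  have hK0' : 0 ≤ K' := (abs_nonneg _).trans (hK' 0)
  refine ⟨hm.sub hm', K + K', fun x => ?_, fun x hx => ?_⟩
  · have h1 := hK x
    have h2 := hK' x
    rw [abs_le] at h1 h2 ⊢
    constructor <;> linarith
  · have h1 := hs x (by linarith)
    have h2 := hs' x (by linarith)
    simp [h1, h2]

theorem ft_sub (g h : Pl → ℝ) (hg : BB g) (hh : BB h) (ξ : Pl) :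
    ft (fun x => g x - h x) ξ = ft g ξ - ft h ξ := by
  have key : ∀ f : Pl → ℝ, BB f → Integrable
      (fun v : Pl => Complex.exp (((-2 * Real.pi * ⟪v, ξ⟫ : ℝ) : ℂ) * Complex.I) • (f v : ℂ)) := by
    intro f hf
    refine ((bb_int f hf).ofReal (𝕜 := ℂ)).mono ?_ (Filter.Eventually.of_forall fun x => ?_)
    · have hc : Continuous (fun v : Pl =>
          Complex.exp (((-2 * Real.pi * ⟪v, ξ⟫ : ℝ) : ℂ) * Complex.I)) := by
        fun_prop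
      exact hc.aestronglyMeasurable.smul ((bb_int f hf).ofReal (𝕜 := ℂ)).aestronglyMeasurable
    · rw [norm_smul, Complex.norm_exp_ofReal_mul_I, one_mul]
      exact le_rfl
  unfold ft
  rw [Real.fourier_eq', Real.fourier_eq', Real.fourier_eq', ← integral_sub (key g hg) (key h hh)]
  refine integral_congr_ae (Filter.Eventually.of_forall fun x => ?_)
  simp only [smul_eq_mul]
  push_cast
  ring

theorem sq_le_of (C : ℝ) (z : ℂ) (h : ‖z‖ ≤ C) : ‖z‖ₑ ^ 2 ≤ ENNReal.ofReal C * ‖z‖ₑ := by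
  rw [pow_two]
  refine mul_le_mul_left ?_ _
  rw [← ofReal_norm]
  exact ENNReal.ofReal_le_ofReal h

theorem z_ft (hYB : StYB) (s : ℝ) (c : Pl) (m m' : ℕ) (ℓ : ℝ) (k : ℤ) (g : Pl → ℝ) (hs : |s| ≤ 1)
    (hl : 0 < ℓ) (hg : BB g) : BB (Z s c m m' ℓ k g) ∧
      ∀ ξ : Pl, ft (Z s c m m' ℓ k g) ξ = Zh s c m m' ℓ ((2 : ℝ) ^ k • ξ) * ft g ξ := by
  obtain ⟨h1, h2, -⟩ := hYB s c m ℓ k g hs hl hg
  obtain ⟨h3, h4, -⟩ := hYB s c m' ℓ k g hs hl hg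
  refine ⟨bb_sub _ _ h1 h3, fun ξ => ?_⟩
  have h5 := ft_sub _ _ h1 h3 ξ
  rw [h2 ξ, h4 ξ, ← sub_mul] at h5
  exact h5

theorem z_ind (x : Pl) (r : ℝ) (g : Pl → ℝ) (hg : BB g) (hS : MeasurableSet (Sq x r)) :
    BB (indicator (Sq x r) g) := by
  obtain ⟨hm, K, hK, hs⟩ := hg
  have hK0 : 0 ≤ K := (abs_nonneg _).trans (hK 0)
  refine ⟨hm.indicator hS, K, fun y => ?_, fun y hy => ?_⟩
  · by_cases h : y ∈ Sq x r
    · rw [indicator_of_mem h]; exact hK y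
    · rw [indicator_of_notMem h, abs_zero]; exact hK0
  · by_cases h : y ∈ Sq x r
    · rw [indicator_of_mem h]; exact hs y hy
    · rw [indicator_of_notMem h]

theorem hFAM (hYB : StYB) (hYC : StYC) (hYL : StYL) (hMB : StMB) (hU1 : StU1) (hU2 : StU2)
    (hU3 : StU3) (hL2A : StL2A) (hL2B : StL2B) (hPT : StPT) : StFAM := by
  intro C₀ R hC₀
  obtain ⟨CM, hCM, hM⟩ := hMB
  obtain ⟨C₁, hC₁, hu1⟩ := hU1 C₀ hC₀
  obtain ⟨C₂, hC₂, hu2⟩ := hU2 C₀ hC₀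
  obtain ⟨C₃, hC₃, hu3⟩ := hU3 C₀ hC₀
  have hCM0 : 0 < CM := lt_of_lt_of_le one_pos hCM
  have e1 : 0 < (2 * C₁) * C₂ := by positivity
  have e2 : 0 < CM * C₂ := by positivity
  have e3 : 0 < CM * (2 * C₁) := by positivity
  have eR : 0 ≤ |R| := abs_nonneg R
  have eR' : R ≤ |R| := le_abs_self R
  obtain ⟨Cf, hCf⟩ : ∃ Cf : ℝ, Cf = |R| + 7 + (2 * C₁) * C₂ + CM * C₂ + CM * (2 * C₁) + C₃ :=
    ⟨_, rfl⟩
  have f0 : 1 ≤ Cf := by rw [hCf]; linarith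
  have f1 : R + 7 ≤ Cf := by rw [hCf]; linarith
  have f2 : (2 * C₁) * C₂ ≤ Cf := by rw [hCf]; linarith
  have f3 : CM * C₂ ≤ Cf := by rw [hCf]; linarith
  have f4 : CM * (2 * C₁) ≤ Cf := by rw [hCf]; linarith
  have f5 : C₃ ≤ Cf := by rw [hCf]; linarith
  refine ⟨Cf, f0, ?_⟩
  clear hCf
  intro u s c m m' K A σ hS hA g hg hg01
  have hsl := hS.slope
  have hcen := hS.cen
  have hmm := hS.mm
  have hℓ : ∀ W : ℕ, (1 : ℝ) ≤ (2 : ℝ) ^ W := fun W => one_le_pow₀ (by norm_num)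
  have hℓ0 : ∀ W : ℕ, (0 : ℝ) < (2 : ℝ) ^ W := fun W => by positivity
  have hY01 : ∀ (W : ℕ) (k : ℤ) (j : ℕ) (n : ℕ) (x : Pl), j < 2 ^ u →
      0 ≤ Y (s j) (c j) n ((2 : ℝ) ^ W) k g x ∧ Y (s j) (c j) n ((2 : ℝ) ^ W) k g x ≤ 1 := by
    intro W k j n x hj
    obtain ⟨-, -, h1, h2, -⟩ := hYB (s j) (c j) n ((2 : ℝ) ^ W) k g (hsl j hj) (hℓ0 W) hg
    exact ⟨h1 (fun y => (hg01 y).1) x, h2 1 (fun y => (hg01 y).2) x⟩
  have hsum1 : ∀ (W : ℕ) (ξ : Pl), ξ ≠ 0 →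
      ∑ j ∈ Finset.range (2 ^ u), ‖Zh (s j) (c j) (m j) (m' j) ((2 : ℝ) ^ W) ξ‖ ≤ 2 * C₁ := by
    intro W ξ hξ
    refine (hu1 u s c m m' R K A σ hS ξ _ hξ (hℓ0 W)).trans ?_
    have h1 : 1 ≤ Real.sqrt ((2 : ℝ) ^ W) := Real.one_le_sqrt.2 (hℓ W)
    have h2 : 1 / Real.sqrt ((2 : ℝ) ^ W) ≤ 1 := by
      rw [div_le_one (lt_of_lt_of_le one_pos h1)]; exact h1
    nlinarith
  have hsum2 : ∀ (W : ℕ) (ξ : Pl), ξ ≠ 0 →
      ∑' k : ℤ, ∑ j ∈ Finset.range (2 ^ u),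
        ‖Zh (s j) (c j) (m j) (m' j) ((2 : ℝ) ^ W) ((2 : ℝ) ^ k • ξ)‖ₑ ≤
        ENNReal.ofReal (C₂ * (K + u + 1)) := fun W ξ hξ =>
    hu2 u s c m m' R K A σ hS ξ _ hξ (hℓ W)
  have hbd : ∀ (W : ℕ) (j : ℕ) (ξ : Pl), j < 2 ^ u →
      ‖Zh (s j) (c j) (m j) (m' j) ((2 : ℝ) ^ W) ξ‖ ≤ CM := fun W j ξ hj =>
    (hM (s j) (c j) (m j) (m' j) _ ξ (hsl j hj) (hmm j hj).1 (hℓ0 W)).1
  have hKu : (0 : ℝ) < K + u + 1 := by positivity
  refine ⟨?_, ?_, ?_, ?_, ?_, ?_, ?_⟩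
  · -- one
    intro W k j x hj
    have h1 := hY01 W k j (m j) x hj
    have h2 := hY01 W k j (m' j) x hj
    simp only [Z]
    rw [abs_le]
    constructor <;> linarith [h1.1, h1.2, h2.1, h2.2]
  · -- cont
    intro W k j hj
    have h1 := (hYC (s j) (c j) (m j) (m' j) ((2 : ℝ) ^ W) k g (hsl j hj) (hℓ0 W) hg).1
    have h2 := (hYC (s j) (c j) (m' j) (m' j) ((2 : ℝ) ^ W) k g (hsl j hj) (hℓ0 W) hg).1
    exact h1.sub h2
  · -- inv
    intro W k j x lam hj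
    have h1 := (hYC (s j) (c j) (m j) (m' j) ((2 : ℝ) ^ W) k g (hsl j hj) (hℓ0 W) hg).2 hg01 x lam
    have h2 : (2 : ℝ) ^ (k + (W : ℤ)) = (2 : ℝ) ^ k * (2 : ℝ) ^ W := by
      rw [zpow_add₀ (by norm_num), zpow_natCast]
    rw [h2]
    exact h1
  · -- lb
    intro W k x
    have h2 : (2 : ℝ) ^ (k + (W : ℤ)) = (2 : ℝ) ^ k * (2 : ℝ) ^ W := by
      rw [zpow_add₀ (by norm_num), zpow_natCast]
    have hρ : (0 : ℝ) < (2 : ℝ) ^ k * (2 : ℝ) ^ W := by positivity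
    rw [h2]
    obtain ⟨ρ, hρe⟩ : ∃ ρ : ℝ, ρ = (2 : ℝ) ^ k * (2 : ℝ) ^ W := ⟨_, rfl⟩
    rw [← hρe] at hρ ⊢
    have hms : ∀ r : ℝ, 0 ≤ r → MeasurableSet (Sq x r) := fun r hr =>
      (hPT.2.2.2.2.2.2.2 x r hr).1
    have hm1 : MeasurableSet (Sq x (4 * ρ)) := hms _ (by positivity)
    have hm2 : MeasurableSet (Sq x (Cf * ρ)) := hms _ (by positivity)
    have hh : BB (indicator (Sq x (Cf * ρ)) g) := z_ind x _ g hg hm2
    have hloc : ∀ j < 2 ^ u, ∀ y ∈ Sq x (4 * ρ),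
        Z (s j) (c j) (m j) (m' j) ((2 : ℝ) ^ W) k g y =
          Z (s j) (c j) (m j) (m' j) ((2 : ℝ) ^ W) k (indicator (Sq x (Cf * ρ)) g) y := by
      intro j hj y hy
      have h3 : ∀ y' ∈ Sq y ((R + 3) * ((2 : ℝ) ^ k * (2 : ℝ) ^ W)),
          g y' = indicator (Sq x (Cf * ρ)) g y' := by
        intro y' hy'
        rw [← hρe] at hy'
        have h4 : y' ∈ Sq x (Cf * ρ) := by
          obtain ⟨a1, a2⟩ := hy
          obtain ⟨b1, b2⟩ := hy'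
          have h5 : (R + 7) * ρ ≤ Cf * ρ := mul_le_mul_of_nonneg_right f1 hρ.le
          constructor
          · have := abs_add_le (y' 0 - y 0) (y 0 - x 0)
            rw [sub_add_sub_cancel] at this
            linarith
          · have := abs_add_le (y' 1 - y 1) (y 1 - x 1)
            rw [sub_add_sub_cancel] at this
            linarith
        rw [indicator_of_mem h4]
      simp only [Z]
      rw [hYL (s j) (c j) (m j) _ R k g _ y (hsl j hj) (hℓ W) (hcen j hj) h3,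
        hYL (s j) (c j) (m' j) _ R k g _ y (hsl j hj) (hℓ W) (hcen j hj) h3]
    have hL := hL2B.2 (2 ^ u)
      (fun j => Z (s j) (c j) (m j) (m' j) ((2 : ℝ) ^ W) k (indicator (Sq x (Cf * ρ)) g))
      (fun j ξ => Zh (s j) (c j) (m j) (m' j) ((2 : ℝ) ^ W) ((2 : ℝ) ^ k • ξ))
      (indicator (Sq x (Cf * ρ)) g) (CM * (2 * C₁)) hh e3.le
      (fun j hj => z_ft hYB _ _ _ _ _ _ _ (hsl j hj) (hℓ0 W) hh)
      (fun ξ hξ => by
        have hξ' : (2 : ℝ) ^ k • ξ ≠ 0 := smul_ne_zero (by positivity) hξ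
        calc ∑ j ∈ Finset.range (2 ^ u),
              ‖Zh (s j) (c j) (m j) (m' j) ((2 : ℝ) ^ W) ((2 : ℝ) ^ k • ξ)‖ ^ 2
            ≤ ∑ j ∈ Finset.range (2 ^ u),
              CM * ‖Zh (s j) (c j) (m j) (m' j) ((2 : ℝ) ^ W) ((2 : ℝ) ^ k • ξ)‖ := by
              refine Finset.sum_le_sum fun j hj => ?_
              rw [pow_two]
              exact mul_le_mul_of_nonneg_right (hbd W j _ (Finset.mem_range.1 hj)) (norm_nonneg _)
          _ = CM * ∑ j ∈ Finset.range (2 ^ u),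
              ‖Zh (s j) (c j) (m j) (m' j) ((2 : ℝ) ^ W) ((2 : ℝ) ^ k • ξ)‖ := by
              rw [Finset.mul_sum]
          _ ≤ CM * (2 * C₁) := mul_le_mul_of_nonneg_left (hsum1 W _ hξ') hCM0.le)
    have hint : ∫⁻ y, ‖indicator (Sq x (Cf * ρ)) g y‖ₑ ^ 2 =
        ∫⁻ y in Sq x (Cf * ρ), ‖g y‖ₑ ^ 2 := by
      rw [← lintegral_indicator hm2]
      refine lintegral_congr fun y => ?_
      by_cases h : y ∈ Sq x (Cf * ρ)
      · rw [indicator_of_mem h, indicator_of_mem h]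
      · rw [indicator_of_notMem h, indicator_of_notMem h]
        simp
    rw [hint] at hL
    calc ∑ j ∈ Finset.range (2 ^ u), ∫⁻ y in Sq x (4 * ρ),
          ‖Z (s j) (c j) (m j) (m' j) ((2 : ℝ) ^ W) k g y‖ₑ ^ 2
        ≤ ∑ j ∈ Finset.range (2 ^ u), ∫⁻ y,
          ‖Z (s j) (c j) (m j) (m' j) ((2 : ℝ) ^ W) k (indicator (Sq x (Cf * ρ)) g) y‖ₑ ^ 2 := by
          refine Finset.sum_le_sum fun j hj => ?_
          refine le_trans (le_of_eq ?_) (setLIntegral_le_lintegral (Sq x (4 * ρ)) _)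
          refine setLIntegral_congr_fun hm1 fun y hy => ?_
          rw [hloc j (Finset.mem_range.1 hj) y hy]
      _ ≤ ENNReal.ofReal (CM * (2 * C₁)) * ∫⁻ y in Sq x (Cf * ρ), ‖g y‖ₑ ^ 2 := hL
      _ ≤ ENNReal.ofReal Cf * ∫⁻ y in Sq x (Cf * ρ), ‖g y‖ₑ ^ 2 :=
          mul_le_mul_left (ENNReal.ofReal_le_ofReal f4) _
  · -- all
    intro W
    have hL := hL2B.1 (2 ^ u)
      (fun k j => Z (s j) (c j) (m j) (m' j) ((2 : ℝ) ^ W) k g)
      (fun j ξ => Zh (s j) (c j) (m j) (m' j) ((2 : ℝ) ^ W) ξ) g (CM * (C₂ * (K + u + 1))) hg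
      (by positivity)
      (fun k j hj => z_ft hYB _ _ _ _ _ _ _ (hsl j hj) (hℓ0 W) hg)
      (fun ξ hξ => by
        calc ∑' k : ℤ, ∑ j ∈ Finset.range (2 ^ u),
              ‖Zh (s j) (c j) (m j) (m' j) ((2 : ℝ) ^ W) ((2 : ℝ) ^ k • ξ)‖ₑ ^ 2
            ≤ ∑' k : ℤ, ENNReal.ofReal CM * ∑ j ∈ Finset.range (2 ^ u),
              ‖Zh (s j) (c j) (m j) (m' j) ((2 : ℝ) ^ W) ((2 : ℝ) ^ k • ξ)‖ₑ := by
              refine ENNReal.tsum_le_tsum fun k => ?_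
              rw [Finset.mul_sum]
              refine Finset.sum_le_sum fun j hj => ?_
              exact sq_le_of CM _ (hbd W j _ (Finset.mem_range.1 hj))
          _ = ENNReal.ofReal CM * ∑' k : ℤ, ∑ j ∈ Finset.range (2 ^ u),
              ‖Zh (s j) (c j) (m j) (m' j) ((2 : ℝ) ^ W) ((2 : ℝ) ^ k • ξ)‖ₑ :=
              ENNReal.tsum_mul_left
          _ ≤ ENNReal.ofReal CM * ENNReal.ofReal (C₂ * (K + u + 1)) :=
              mul_le_mul_right (hsum2 W ξ hξ) _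
          _ = ENNReal.ofReal (CM * (C₂ * (K + u + 1))) := (ENNReal.ofReal_mul hCM0.le).symm)
    refine hL.trans (mul_le_mul_left (ENNReal.ofReal_le_ofReal ?_) _)
    rw [← mul_assoc]
    exact mul_le_mul_of_nonneg_right f3 hKu.le
  · -- dif
    intro W w w' T hu huW hWw hww' hw' hT
    have hB : 0 ≤ (T : ℝ) + W * (1 + (2 : ℝ) ^ u * (A * (T : ℝ) ^ (-(1 / σ)))) := by
      have : 0 ≤ (T : ℝ) ^ (-(1 / σ)) := Real.rpow_nonneg (Nat.cast_nonneg T) _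
      positivity
    have hL := hL2B.1 (2 ^ u)
      (fun k j x => Z (s j) (c j) (m j) (m' j) ((2 : ℝ) ^ w) k g x -
        Z (s j) (c j) (m j) (m' j) ((2 : ℝ) ^ w') k g x)
      (fun j ξ => Zh (s j) (c j) (m j) (m' j) ((2 : ℝ) ^ w) ξ -
        Zh (s j) (c j) (m j) (m' j) ((2 : ℝ) ^ w') ξ) g
      (C₃ * (T + W * (1 + (2 : ℝ) ^ u * (A * (T : ℝ) ^ (-(1 / σ)))))) hg
      (mul_nonneg hC₃.le hB)
      (fun k j hj => by
        obtain ⟨a1, a2⟩ := z_ft hYB (s j) (c j) (m j) (m' j) _ k g (hsl j hj) (hℓ0 w) hg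
        obtain ⟨b1, b2⟩ := z_ft hYB (s j) (c j) (m j) (m' j) _ k g (hsl j hj) (hℓ0 w') hg
        refine ⟨bb_sub _ _ a1 b1, fun ξ => ?_⟩
        have h5 := ft_sub _ _ a1 b1 ξ
        rw [a2 ξ, b2 ξ, ← sub_mul] at h5
        exact h5)
      (fun ξ hξ => hu3 u s c m m' R K A σ hS hA W w w' T hu huW hWw hww' hw' hT ξ hξ)
    refine hL.trans (mul_le_mul_left (ENNReal.ofReal_le_ofReal ?_) _)
    exact mul_le_mul_of_nonneg_right f5 hB
  · -- tot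
    intro W
    have hL := hL2A (2 ^ u)
      (fun k j => Z (s j) (c j) (m j) (m' j) ((2 : ℝ) ^ W) k g)
      (fun j ξ => Zh (s j) (c j) (m j) (m' j) ((2 : ℝ) ^ W) ξ) g (2 * C₁) (C₂ * (K + u + 1)) hg
      (by positivity) (by positivity)
      (fun k j hj => z_ft hYB _ _ _ _ _ _ _ (hsl j hj) (hℓ0 W) hg)
      (fun ξ hξ => hsum1 W ξ hξ) (fun ξ hξ => hsum2 W ξ hξ)
    refine hL.trans (mul_le_mul_left (ENNReal.ofReal_le_ofReal ?_) _)
    rw [← mul_assoc]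
    exact mul_le_mul_of_nonneg_right f2 hKu.le

end Pool.Agent.Helper33.RG
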