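import Pool.Agent.Helper20.RG.St3

/-!
# Project RG, module LEB
-/

set_option autoImplicit false

open MeasureTheory Set Filter Topology
open scoped ENNReal RealInnerProductSpace

namespace Pool.Agent.Helper33.RG

open Pool.Agent.Helper20.RG
open Pool.Agent.Helper68.LM (Pl BB Bd Av HL ft fm DQ)

private theorem bb_int' (g : Pl → ℝ) (hg : BB g) : Integrable g := by
  obtain ⟨hm, K, hK, hs⟩ := hg
  have h1 : Integrable (indicator (Metric.closedBall (0 : Pl) K) fun _ => K) :=
    (integrable_indicator_iff Metric.isClosed_closedBall.measurableSet).2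
      (integrableOn_const (measure_closedBall_lt_top.ne))
  refine h1.mono' hm.aestronglyMeasurable (Filter.Eventually.of_forall fun x => ?_)
  by_cases hx : x ∈ Metric.closedBall (0 : Pl) K
  · rw [indicator_of_mem hx, Real.norm_eq_abs]
    exact hK x
  · rw [indicator_of_notMem hx, hs x (by simpa using hx), norm_zero]

private theorem sq_eq : Sq (0 : Pl) (1 / 2) =
    (MeasurableEquiv.toLp 2 (Fin 2 → ℝ)).symm ⁻¹' (Icc (fun _ => -(1 / 2)) (fun _ => 1 / 2)) := by
  ext y
  rw [mem_preimage, mem_Icc, Pi.le_def, Pi.le_def]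
  constructor
  · rintro ⟨h1, h2⟩
    have h1' : |y 0| ≤ 1 / 2 := by simpa using h1
    have h2' : |y 1| ≤ 1 / 2 := by simpa using h2
    rw [abs_le] at h1' h2'
    refine ⟨fun i => ?_, fun i => ?_⟩
    · fin_cases i
      · exact h1'.1
      · exact h2'.1
    · fin_cases i
      · exact h1'.2
      · exact h2'.2
  · rintro ⟨h1, h2⟩
    have a0 : -(1 / 2) ≤ y 0 := h1 0
    have a1 : -(1 / 2) ≤ y 1 := h1 1
    have b0 : y 0 ≤ 1 / 2 := h2 0
    have b1 : y 1 ≤ 1 / 2 := h2 1
    constructor
    · show |y 0 - (0 : Pl) 0| ≤ 1 / 2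
      have : (0 : Pl) 0 = 0 := rfl
      rw [this, sub_zero, abs_le]
      exact ⟨a0, b0⟩
    · show |y 1 - (0 : Pl) 1| ≤ 1 / 2
      have : (0 : Pl) 1 = 0 := rfl
      rw [this, sub_zero, abs_le]
      exact ⟨a1, b1⟩

private theorem sq_vol : volume (Sq (0 : Pl) (1 / 2)) = 1 := by
  rw [sq_eq, (EuclideanSpace.volume_preserving_symm_measurableEquiv_toLp (Fin 2)).measure_preimage
    measurableSet_Icc.nullMeasurableSet, Real.volume_Icc_pi]
  norm_num

private theorem sq_meas : MeasurableSet (Sq (0 : Pl) (1 / 2)) := by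
  rw [sq_eq]
  exact (MeasurableEquiv.measurable _) measurableSet_Icc

private theorem sq_sub : Sq (0 : Pl) (1 / 2) ⊆ Metric.closedBall 0 1 := by
  rintro y ⟨h1, h2⟩
  have h1' : |y 0| ≤ 1 / 2 := by simpa using h1
  have h2' : |y 1| ≤ 1 / 2 := by simpa using h2
  rw [mem_closedBall_zero_iff, EuclideanSpace.norm_eq, Fin.sum_univ_two, Real.norm_eq_abs,
    Real.norm_eq_abs, Real.sqrt_le_one]
  have a0 := abs_nonneg (y 0)
  have a1 := abs_nonneg (y 1)
  nlinarith

theorem hLEB : StLEB := by
  intro g hg
  have hint := bb_int' g hg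
  have hgm := hg.1
  obtain ⟨-, K, hK, -⟩ := id hg
  have hK0 : 0 ≤ K := (abs_nonneg _).trans (hK 0)
  filter_upwards [IsUnifLocDoublingMeasure.ae_tendsto_average_norm_sub
    (μ := (volume : Measure Pl)) hint.locallyIntegrable 1] with z hz
  have h1 := hz (l := 𝓝[>] (0 : ℝ)) (fun _ => z) (fun ρ => ρ) tendsto_id
    (by
      filter_upwards [self_mem_nhdsWithin] with ρ hρ
      rw [one_mul]
      exact Metric.mem_closedBall_self (le_of_lt hρ))
  obtain ⟨V, hV⟩ : ∃ V : ℝ, V = (volume (Metric.ball (0 : Pl) 1)).toReal := ⟨_, rfl⟩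
  have hVpos : 0 < V := by
    rw [hV]
    exact ENNReal.toReal_pos (Metric.measure_ball_pos volume 0 one_pos).ne'
      measure_ball_lt_top.ne
  have h2 : Tendsto (fun ρ : ℝ => V * ⨍ y in Metric.closedBall z ρ, ‖g y - g z‖) (𝓝[>] 0)
      (𝓝 0) := by
    have := h1.const_mul V
    rwa [mul_zero] at this
  rw [tendsto_iff_norm_sub_tendsto_zero]
  refine squeeze_zero' (Eventually.of_forall fun _ => norm_nonneg _) ?_ h2
  filter_upwards [self_mem_nhdsWithin] with ρ hρ
  have hρ0 : (0 : ℝ) < ρ := hρ
  have hbx : IsFiniteMeasure bx := ⟨by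
    unfold bx
    rw [Measure.restrict_apply_univ, sq_vol]
    exact ENNReal.one_lt_top⟩
  have hmeas : Measurable fun y : Pl => g (z - ρ • y) :=
    hgm.comp (measurable_const.sub (measurable_id.const_smul ρ))
  have hi1 : Integrable (fun y : Pl => g (z - ρ • y)) bx :=
    Integrable.of_bound hmeas.aestronglyMeasurable K (Eventually.of_forall fun y => by
      rw [Real.norm_eq_abs]; exact hK _)
  have hc : ∫ _y : Pl, g z ∂bx = g z := by
    unfold bx
    rw [setIntegral_const, measureReal_def, sq_vol]
    simp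
  have h3 : Av bx ρ g z - g z = ∫ y : Pl, (g (z - ρ • y) - g z) ∂bx := by
    rw [integral_sub hi1 (integrable_const _), hc]
    rfl
  rw [h3]
  -- the function on the ball
  have hF : Integrable (fun y : Pl => ‖g (z - ρ • y) - g z‖)
      (volume.restrict (Metric.closedBall (0 : Pl) 1)) := by
    have : IsFiniteMeasure (volume.restrict (Metric.closedBall (0 : Pl) 1)) :=
      ⟨by rw [Measure.restrict_apply_univ]; exact measure_closedBall_lt_top⟩
    refine Integrable.of_bound ((hmeas.sub measurable_const).norm.aestronglyMeasurable) (K + K)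
      (Eventually.of_forall fun y => ?_)
    rw [norm_norm, Real.norm_eq_abs]
    have a1 := hK (z - ρ • y)
    have a2 := hK z
    rw [abs_le] at a1 a2 ⊢
    constructor <;> linarith
  have h4 : ‖∫ y : Pl, (g (z - ρ • y) - g z) ∂bx‖ ≤
      ∫ y in Metric.closedBall (0 : Pl) 1, ‖g (z - ρ • y) - g z‖ := by
    refine (norm_integral_le_integral_norm _).trans ?_
    unfold bx
    exact setIntegral_mono_set hF (Eventually.of_forall fun y => norm_nonneg _)
      (Eventually.of_forall fun y hy => sq_sub hy)
  refine h4.trans (le_of_eq ?_)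
  -- change of variables
  have h5 : ∫ y in Metric.closedBall (0 : Pl) 1, ‖g (z - ρ • y) - g z‖ =
      ∫ y : Pl, indicator (Metric.closedBall z ρ) (fun w => ‖g w - g z‖) (z - ρ • y) := by
    rw [← integral_indicator Metric.isClosed_closedBall.measurableSet]
    refine integral_congr_ae (Eventually.of_forall fun y => ?_)
    have h6 : y ∈ Metric.closedBall (0 : Pl) 1 ↔ z - ρ • y ∈ Metric.closedBall z ρ := by
      rw [mem_closedBall_zero_iff, mem_closedBall_iff_norm, sub_sub_cancel_left, norm_neg,
        norm_smul, Real.norm_eq_abs, abs_of_pos hρ0]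
      constructor
      · intro h; nlinarith
      · intro h; nlinarith
    by_cases hy : y ∈ Metric.closedBall (0 : Pl) 1
    · simp only [indicator_of_mem hy, indicator_of_mem (h6.1 hy)]
    · simp only [indicator_of_notMem hy, indicator_of_notMem (fun h => hy (h6.2 h))]
  have h7 := Measure.integral_comp_smul (volume : Measure Pl)
    (fun x => indicator (Metric.closedBall z ρ) (fun w => ‖g w - g z‖) (z - x)) ρ
  have h8 := integral_sub_left_eq_self
    (indicator (Metric.closedBall z ρ) (fun w => ‖g w - g z‖)) (volume : Measure Pl) z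
  have hfr : Module.finrank ℝ Pl = 2 := by
    show Module.finrank ℝ (EuclideanSpace ℝ (Fin 2)) = 2
    rw [finrank_euclideanSpace_fin]
  rw [h5, h7, h8, integral_indicator Metric.isClosed_closedBall.measurableSet, hfr,
    setAverage_eq, measureReal_def, Measure.addHaar_closedBall _ _ hρ0.le, hfr,
    ENNReal.toReal_mul, ENNReal.toReal_ofReal (by positivity), ← hV, abs_of_pos (by positivity),
    smul_eq_mul, smul_eq_mul]
  field_simp

end Pool.Agent.Helper33.RG
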